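import Pool.Agent.helper45.PV.SpecG

set_option autoImplicit false

open scoped Matrix Topology

namespace Pool.Agent.PV

open Pool.Agent.CZ

theorem CPL_scal (D : Type) [NormedRing D] [NormedAlgebra ℂ D] :
    IsClosed {d : D | ∃ c : ℂ, d = algebraMap ℂ D c} := by
  have h := (LinearMap.range (Algebra.linearMap ℂ D)).closed_of_finiteDimensional
  have e : ((LinearMap.range (Algebra.linearMap ℂ D) : Submodule ℂ D) : Set D) =
      {d : D | ∃ c : ℂ, d = algebraMap ℂ D c} := by
    ext d
    constructor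
    · rintro ⟨c, hc⟩
      exact ⟨c, hc.symm⟩
    · rintro ⟨c, hc⟩
      exact ⟨c, hc.symm⟩
  rw [e] at h
  exact h

theorem CPL_L1 (D : Type) [NormedRing D] [NormedAlgebra ℂ D] [CompleteSpace D] :
    CompleteSpace ↥(L1s D) := by
  have h : IsClosed ((L1s D : Subalgebra ℂ C(UnitAddCircle, D)) : Set C(UnitAddCircle, D)) :=
    (CPL_scal D).preimage (continuous_eval_const (0 : UnitAddCircle))
  exact h.completeSpace_coe

theorem CPL_MC {C D : Type} [NormedRing C] [NormedAlgebra ℂ C] [CompleteSpace C] [NormedRing D]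
    [NormedAlgebra ℂ D] [CompleteSpace D] (φ : C →ₐ[ℂ] D) (hφ : Continuous φ.toRingHom) :
    CompleteSpace ↥(MCs φ) := by
  have h0 : Continuous fun p : C(unitInterval, D) × C => p.1 0 :=
    (continuous_eval_const (0 : unitInterval)).comp continuous_fst
  have h1 : Continuous fun p : C(unitInterval, D) × C => p.1 1 :=
    (continuous_eval_const (1 : unitInterval)).comp continuous_fst
  have h2 : Continuous fun p : C(unitInterval, D) × C => φ p.2 := hφ.comp continuous_snd
  have h : IsClosed ((MCs φ : Subalgebra ℂ (C(unitInterval, D) × C)) :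
      Set (C(unitInterval, D) × C)) :=
    ((CPL_scal D).preimage h0).inter (isClosed_eq h1 h2)
  exact h.completeSpace_coe

theorem CPL_L2 {D : Type} [NormedRing D] [NormedAlgebra ℂ D] [CompleteSpace D] (χ : D →ₐ[ℂ] ℂ)
    (hχ : Continuous χ) : CompleteSpace ↥(L2s χ) := by
  have e : ((L2s χ : Subalgebra ℂ C(UnitAddCircle, D)) : Set C(UnitAddCircle, D)) =
      {h | h 0 ∈ {d : D | ∃ c : ℂ, d = algebraMap ℂ D c}} ∩
        ⋂ t : UnitAddCircle, {h | χ (h t) = χ (h 0)} := by
    ext h
    constructor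
    · rintro ⟨h0, c, hc⟩
      refine ⟨h0, Set.mem_iInter.2 fun t => ?_⟩
      change χ (h t) = χ (h 0)
      rw [hc, hc]
    · rintro ⟨h0, h1⟩
      exact ⟨h0, χ (h 0), fun t => Set.mem_iInter.1 h1 t⟩
  have h : IsClosed ((L2s χ : Subalgebra ℂ C(UnitAddCircle, D)) : Set C(UnitAddCircle, D)) := by
    rw [e]
    refine ((CPL_scal D).preimage (continuous_eval_const (0 : UnitAddCircle))).inter ?_
    refine isClosed_iInter fun t => ?_
    exact isClosed_eq (hχ.comp (continuous_eval_const t)) (hχ.comp (continuous_eval_const _))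
  exact h.completeSpace_coe

theorem CPL : CPL_stmt := by
  refine ⟨?_, ?_, ?_⟩
  · intro D _ _ _
    exact CPL_L1 D
  · intro C D _ _ _ _ _ _ φ hφ
    exact CPL_MC φ hφ
  · intro D _ _ _ χ hχ
    exact CPL_L2 χ hχ

end Pool.Agent.PV
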