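import Pool.Agent.helper77.PV.SpecC

set_option autoImplicit false

open scoped Matrix Topology
open Filter

namespace Pool.Agent.PV

open Pool.Agent.CZ

theorem D0Z_cls {A : Type} [Ring A] (n : ℕ) (hn : n = 1) (e : Matrix (Fin n) (Fin n) A)
    (he : e * e = e) (h1 : e = 1) : cls ⟨n, e, he⟩ = unitCls A := by
  subst hn
  subst h1
  rfl

theorem D0Z_unit (A : Type) [Ring A] (h : (1 : Matrix Unit Unit A) * 1 = 1) :
    k0 (1 : Matrix Unit Unit A) h = unitCls A := by
  unfold k0
  refine D0Z_cls _ Fintype.card_unit _ _ ?_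
  exact Matrix.submatrix_one_equiv _

/-- the unit `z e + 1 - e` -/
theorem D0Z_zunit {B : Type} [NormedRing B] [NormedAlgebra ℂ B] (ι : Type) [Fintype ι]
    [DecidableEq ι] (e : Matrix ι ι B) (he : e * e = e) :
    ∃ g : (Matrix ι ι C(UnitAddCircle, B))ˣ, (g : Matrix ι ι C(UnitAddCircle, B)) =
      zl B • e.map (cl B) + (1 - e.map (cl B)) := by
  set E : Matrix ι ι C(UnitAddCircle, B) := e.map (cl B) with hE
  have hEE : E * E = E := by
    have h := congrArg ((cl B).toRingHom).mapMatrix he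
    rw [map_mul] at h
    exact h
  have hcomm : ∀ (w : C(UnitAddCircle, B)), (∀ b, w * cl B b = cl B b * w) →
      E * (w • E) = w • E := by
    intro w hw
    have h1 : E * (w • E) = w • (E * E) := by
      ext i j : 1
      rw [Matrix.mul_apply, Matrix.smul_apply, Matrix.mul_apply, smul_eq_mul, Finset.mul_sum]
      refine Finset.sum_congr rfl fun k _ => ?_
      rw [Matrix.smul_apply, smul_eq_mul, ← mul_assoc, ← mul_assoc]
      congr 1
      exact (hw (e i k)).symm
    rw [h1, hEE]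
  have hz : ∀ b, zl B * cl B b = cl B b * zl B := by
    intro b
    ext t
    change (fourier 1 t : ℂ) • (1 : B) * b = b * ((fourier 1 t : ℂ) • (1 : B))
    rw [smul_mul_assoc, mul_smul_comm, one_mul, mul_one]
  have hzi : ∀ b, zi B * cl B b = cl B b * zi B := by
    intro b
    ext t
    change (fourier (-1) t : ℂ) • (1 : B) * b = b * ((fourier (-1) t : ℂ) • (1 : B))
    rw [smul_mul_assoc, mul_smul_comm, one_mul, mul_one]
  have h1 := hcomm (zl B) hz
  have h2 := hcomm (zi B) hzi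
  have hzz : zl B * zi B = 1 := (zU B).val_inv
  have hzz' : zi B * zl B = 1 := (zU B).inv_val
  have e0 : ∀ (w : C(UnitAddCircle, B)) (M N : Matrix ι ι C(UnitAddCircle, B)),
      (w • M) * N = w • (M * N) := by
    intro w M N
    ext i j : 1
    rw [Matrix.mul_apply, Matrix.smul_apply, Matrix.mul_apply, smul_eq_mul, Finset.mul_sum]
    refine Finset.sum_congr rfl fun k _ => ?_
    rw [Matrix.smul_apply, smul_eq_mul, mul_assoc]
  have key : ∀ w w' : C(UnitAddCircle, B), w * w' = 1 → E * (w' • E) = w' • E →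
      (w • E + (1 - E)) * (w' • E + (1 - E)) = 1 := by
    intro w w' hw h
    have e1 : (w • E) * (w' • E) = E := by
      rw [e0, h, smul_smul, hw, one_smul]
    have e2 : (w • E) * (1 - E) = 0 := by
      rw [e0, mul_sub, mul_one, hEE, sub_self]
      ext i j : 1
      rw [Matrix.smul_apply, Matrix.zero_apply, smul_eq_mul, mul_zero]
    have e3 : (1 - E) * (w' • E) = 0 := by
      rw [sub_mul, one_mul, h, sub_self]
    have e4 : (1 - E) * (1 - E) = 1 - E := by
      rw [mul_sub, mul_one, sub_mul, one_mul, hEE, sub_self, sub_zero]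
    rw [add_mul, mul_add, mul_add, e1, e2, e3, e4]
    abel
  exact ⟨⟨zl B • E + (1 - E), zi B • E + (1 - E), key _ _ hzz h2, key _ _ hzz' h1⟩, rfl⟩

theorem D0Z_be (hK0G : K0G_stmt) {B : Type} [NormedRing B] [NormedAlgebra ℂ B]
    (be be' : K0 B →+ K1 C(UnitAddCircle, B)) (h : IsBe B be) (h' : IsBe B be') : be = be' := by
  have h1 : ∀ (ι : Type) [Fintype ι] [DecidableEq ι] (e : Matrix ι ι B) (he : e * e = e),
      be (k0 e he) = be' (k0 e he) := by
    intro ι _ _ e he
    obtain ⟨g, hg⟩ := D0Z_zunit ι e he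
    rw [h ι e he g hg, h' ι e he g hg]
  refine AddMonoidHom.ext fun z => ?_
  obtain ⟨n, m, e, he, rfl⟩ := hK0G B z
  rw [map_sub, map_sub, map_nsmul, map_nsmul, h1, ← D0Z_unit B (mul_one 1), h1]

theorem D0Z (hD1E : D1E_stmt) (hD1N : D1N_stmt) (hD1P : D1P_stmt) (hBOT : BOT_stmt)
    (hBET : BET_stmt) (hBEN : BEN_stmt) (hHON : HON_stmt) (hHOF : HOF_stmt) (hHOG : HOG_stmt)
    (hFUN : FUN_stmt) (hK0G : K0G_stmt) : D0Z_stmt := by
  intro B A _ _ _ _ _ _ al io u c hz d0 hd0 ha y hy
  obtain ⟨h, h', hi, cc, be, dl, de, hzl, hcc, hbe, hdl, hde, hd⟩ := hd0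
  obtain ⟨-, f2, -, -, -⟩ := hFUN
  obtain ⟨x, hx1, hx2⟩ := hHOG B de hde y
  -- `lal_* x = x`
  have hlx : k0a (lal al h h') x = x := by
    rw [← sub_eq_zero]
    refine hHOF B de hde _ ?_ ?_
    · rw [map_sub, hx1, sub_zero]
      have e1 : k0map (el B).toRingHom (k0a (lal al h h') x) =
          k0map ((al : B →ₐ[ℂ] B).toRingHom.comp (el B).toRingHom) x :=
        (f2 _ _ _ (((lal al h h') : C(UnitAddCircle, B) →ₐ[ℂ] C(UnitAddCircle, B)).toRingHom)
          (el B).toRingHom x).symm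
      rw [e1, f2, hx1, map_zero]
    · rw [map_sub]
      have e2 : k1map (al : B →ₐ[ℂ] B).toRingHom ha (de x) = de (k0a (lal al h h') x) :=
        hHON.1 B B (al : B →ₐ[ℂ] B) h ha de de hde hde x
      rw [← e2, hx2]
      have e3 : k1map (al : B →ₐ[ℂ] B).toRingHom ha y = y := hy
      rw [e3, sub_self]
  have hci : Continuous (cmpC UnitAddCircle io hi).toRingHom := by
    exact ContinuousMap.continuous_postcomp (⟨io, hi⟩ : C(B, A))
  obtain ⟨g, hg⟩ := (hD1P C(UnitAddCircle, B) C(UnitAddCircle, A) (lal al h h')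
    (cmpC UnitAddCircle io hi) (lu u) cc hci hzl dl hdl).2.2.1 x hlx
  obtain ⟨be', d', b1, -, -, -, b5⟩ := hBOT A
  have hbb : be' = be := D0Z_be hK0G be' be b1 hbe
  subst hbb
  refine ⟨d' g, ?_⟩
  rw [hd]
  obtain ⟨d1, hd1⟩ := hD1E B A al io u c hz
  have hmap : ZMap al io u (lal al h h') (cmpC UnitAddCircle io hi) (lu u) (cl B) (cl A) :=
    { cf := cl_cont B
      cF := cl_cont A
      fal := fun b => rfl
      fio := fun b => rfl
      fu := rfl }
  have hN := hD1N B A C(UnitAddCircle, B) C(UnitAddCircle, A) al io u c (lal al h h')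
    (cmpC UnitAddCircle io hi) (lu u) cc (cl B) (cl A) (cl_cont A) hz hzl hmap d1 dl hd1 hdl
    (k1map (el A).toRingHom (el_cont A) g)
  have hg2 := b5 g
  have e4 : x = dl (k1map (cl A).toRingHom (cl_cont A) (k1map (el A).toRingHom (el_cont A) g)) +
      dl (be' (d' g)) := by
    rw [← map_add, ← hg2, hg]
  rw [← hN] at e4
  have e5 := congrArg de e4
  rw [map_add, hHON.2 B de hde, zero_add, hx2] at e5
  exact e5.symm

end Pool.Agent.PV
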