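import Pool.Agent.helper77.PV.SpecB

set_option autoImplicit false

open scoped Matrix Topology
open Filter

namespace Pool.Agent.PV

open Pool.Agent.CZ

attribute [local instance] Matrix.linftyOpNormedRing Matrix.linftyOpNormedAlgebra

/-- the unit `W U + 1 - P` -/
theorem D1P_unit {S : Type} [Ring S] (U : Sˣ) (W W' P Q : S) (hP : P * P = P) (hUP : (U : S) * P = Q * U)
    (hWQ : W * Q = W) (hPW : P * W = W) (hWW : W * W' = P) (hWW' : W' * W = Q) (hQW : Q * W' = W')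
    (hWP : W' * P = W') : ∃ v : Sˣ, (v : S) = W * U + (1 - P) := by
  have hUQ : ((U⁻¹ : Sˣ) : S) * Q = P * ((U⁻¹ : Sˣ) : S) := by
    have h1 : ((U⁻¹ : Sˣ) : S) * ((U : S) * P) * ((U⁻¹ : Sˣ) : S) =
        ((U⁻¹ : Sˣ) : S) * (Q * U) * ((U⁻¹ : Sˣ) : S) := by rw [hUP]
    rw [← mul_assoc, Units.inv_mul, one_mul, mul_assoc, mul_assoc Q, Units.mul_inv, mul_one] at h1
    exact h1.symm
  refine ⟨⟨W * U + (1 - P), (1 - P) + ((U⁻¹ : Sˣ) : S) * W', ?_, ?_⟩, rfl⟩
  · have h1 : W * (U : S) * (1 - P) = 0 := by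
      rw [mul_assoc, mul_sub, mul_one, hUP, mul_sub, ← mul_assoc W Q, hWQ, sub_self]
    have h2 : W * (U : S) * (((U⁻¹ : Sˣ) : S) * W') = P := by
      rw [mul_assoc, ← mul_assoc (U : S), Units.mul_inv, one_mul, hWW]
    have h3 : (1 - P) * (1 - P) = 1 - P := by
      rw [mul_sub, mul_one, sub_mul, one_mul, hP, sub_self, sub_zero]
    have h4 : (1 - P) * (((U⁻¹ : Sˣ) : S) * W') = 0 := by
      rw [sub_mul, one_mul, ← mul_assoc P, ← hUQ, mul_assoc _ Q, hQW, sub_self]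
    rw [add_mul, mul_add, mul_add, h1, h2, h3, h4]
    abel
  · have h1 : (1 - P) * (W * (U : S)) = 0 := by
      rw [← mul_assoc, sub_mul 1 P W, one_mul, hPW, sub_self, zero_mul]
    have h2 : ((U⁻¹ : Sˣ) : S) * W' * (W * (U : S)) = P := by
      rw [mul_assoc, ← mul_assoc W', hWW', ← hUP, ← mul_assoc, Units.inv_mul, one_mul]
    have h3 : (1 - P) * (1 - P) = 1 - P := by
      rw [mul_sub, mul_one, sub_mul, one_mul, hP, sub_self, sub_zero]
    have h4 : ((U⁻¹ : Sˣ) : S) * W' * (1 - P) = 0 := by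
      rw [mul_sub, mul_one, mul_assoc, hWP, sub_self]
    rw [add_mul, mul_add, mul_add, h1, h2, h3, h4]
    abel

theorem D1P_k0 {A : Type} [Ring A] {ι : Type} [Fintype ι] (e f : Matrix ι ι A) (he : e * e = e)
    (hf : f * f = f) (h : e = f) : k0 e he = k0 f hf := by
  subst h
  rfl

/-- `P` with `[al P] = [P]` via `g` is an index -/
theorem D1P_idx {B A : Type} [NormedRing B] [NormedAlgebra ℂ B] [CompleteSpace B] [NormedRing A]
    [NormedAlgebra ℂ A] [CompleteSpace A] (hIN0 : IN0_stmt)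
    (al : B ≃ₐ[ℂ] B) (io : B →ₐ[ℂ] A) (u : Aˣ) (c : ℤ → A →ₗ[ℂ] B) (hz : ZPair al io u c)
    (ι : Type) [Fintype ι] [DecidableEq ι] (P : Matrix ι ι B) (hP : P * P = P)
    (g : (Matrix ι ι B)ˣ) (hg : (g : Matrix ι ι B) * P.map al = P * g) :
    ∃ v : (Matrix ι ι A)ˣ, IsInd al io u c v (k0 P hP) := by
  set G : Matrix ι ι B := (g : Matrix ι ι B) with hG
  set G' : Matrix ι ι B := ((g⁻¹ : (Matrix ι ι B)ˣ) : Matrix ι ι B) with hG'
  have hGG : G * G' = 1 := g.mul_inv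
  have hGG' : G' * G = 1 := g.inv_mul
  set Q : Matrix ι ι B := P.map al with hQ
  have hQQ : Q * Q = Q := by
    have h := congrArg (al.toRingEquiv : B →+* B).mapMatrix hP
    rw [map_mul] at h
    exact h
  have hg' : Q * G' = G' * P := by
    have h1 : G' * (G * Q) * G' = G' * (P * G) * G' := by rw [hg]
    rw [← mul_assoc, hGG', one_mul, mul_assoc, mul_assoc P, hGG, mul_one] at h1
    exact h1
  obtain ⟨w, hw⟩ : ∃ w : Matrix ι ι B, w = G * Q := ⟨_, rfl⟩
  obtain ⟨w', hw'⟩ : ∃ w' : Matrix ι ι B, w' = Q * G' := ⟨_, rfl⟩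
  have e1 : P * w = w := by
    rw [hw, ← mul_assoc, ← hg, mul_assoc, hQQ]
  have e2 : w * Q = w := by
    rw [hw, mul_assoc, hQQ]
  have e3 : w * w' = P := by
    rw [hw, hw', mul_assoc, ← mul_assoc Q, hQQ, ← mul_assoc, hg, mul_assoc, hGG, mul_one]
  have e4 : w' * w = Q := by
    rw [hw, hw', mul_assoc, ← mul_assoc G', hGG', one_mul, hQQ]
  have e5 : Q * w' = w' := by
    rw [hw', ← mul_assoc, hQQ]
  have e6 : w' * P = w' := by
    rw [hw', mul_assoc, ← hg', ← mul_assoc, hQQ]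
  let φ : Matrix ι ι B →+* Matrix ι ι A := (io.toRingHom).mapMatrix
  have hφ : ∀ M : Matrix ι ι B, φ M = M.map io := fun M => rfl
  have hU : ((uM ι u : (Matrix ι ι A)ˣ) : Matrix ι ι A) * φ P = φ Q * (uM ι u : (Matrix ι ι A)ˣ) := by
    have h1 : ((uM ι u : (Matrix ι ι A)ˣ) : Matrix ι ι A) = Matrix.diagonal (fun _ => (u : A)) := rfl
    rw [h1, hφ, hφ]
    ext i j
    rw [Matrix.diagonal_mul, Matrix.mul_diagonal, Matrix.map_apply, Matrix.map_apply, hQ,
      Matrix.map_apply]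
    exact hz.cov (P i j)
  obtain ⟨v, hv⟩ := D1P_unit (uM ι u) (φ w) (φ w') (φ P) (φ Q) (by rw [← map_mul, hP]) hU
    (by rw [← map_mul, e2]) (by rw [← map_mul, e1]) (by rw [← map_mul, e3])
    (by rw [← map_mul, e4]) (by rw [← map_mul, e5]) (by rw [← map_mul, e6])
  exact ⟨v, (hIN0 B A al io u c hz ι).2.2 P w w' hP v e1 e2 e3 e4 hv⟩

theorem D1P (hINE : INE_stmt) (hINA : INA_stmt) (hIN0 : IN0_stmt) (hK0G : K0G_stmt) (hK0C : K0C_stmt)
    (hK0D : K0D_stmt) (hK0B : K0B_stmt) (hK1G : K1G_stmt) (hK1M : K1M_stmt) (hK1B : K1B_stmt)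
    (hFUN : FUN_stmt) : D1P_stmt := by
  intro B A _ _ _ _ _ _ al io u c hi hz d1 hd
  have hu : d1 (k1 (uM Unit u)) = unitCls B := by
    have h := hd Unit (uM Unit u) _ (hIN0 B A al io u c hz Unit).2.1
    rw [h, Fintype.card_unit, one_smul]
  refine ⟨?_, ?_, ?_, hu⟩
  · intro y
    obtain ⟨n, g, rfl⟩ := hK1G B y
    rw [k1map_k1]
    exact hd (Fin n) _ 0 ((hIN0 B A al io u c hz (Fin n)).1 g)
  · intro y
    obtain ⟨n, g, rfl⟩ := hK1G A y
    obtain ⟨z, hz'⟩ := hINE B A al io u c hz (Fin n) g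
    rw [hd (Fin n) g z hz']
    exact hINA B A al io u c hz (Fin n) g z hz'
  · intro z hzal
    obtain ⟨n, m, e, he, rfl⟩ := hK0G B z
    have hal : e.map al * e.map al = e.map al := by
      have h := congrArg (al.toRingEquiv : B →+* B).mapMatrix he
      rw [map_mul] at h
      exact h
    have h1 : k0 (e.map al) hal = k0 e he := by
      have h2 : k0a al (k0 e he) = k0 (e.map al) hal := rfl
      have h3 : k0a al (unitCls B) = unitCls B := hFUN.2.2.1 B B (al : B →ₐ[ℂ] B).toRingHom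
      rw [map_sub, map_nsmul, h2, h3, sub_left_inj] at hzal
      exact hzal
    obtain ⟨k, l, g, hg⟩ := hK0C B (Fin n) (e.map al) e hal he h1
    obtain ⟨hP, hPk⟩ := hK0D B (Fin n) e he k l
    have hpad : (pad e k l).map al = pad (e.map al) k l := by
      unfold pad
      rw [Matrix.fromBlocks_map, Matrix.fromBlocks_map, Matrix.map_zero _ (map_zero al),
        Matrix.map_zero _ (map_zero al), Matrix.map_zero _ (map_zero al),
        Matrix.map_zero _ (map_zero al), Matrix.map_zero _ (map_zero al),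
        Matrix.map_one _ (map_zero al) (map_one al)]
    obtain ⟨v, hv⟩ := D1P_idx hIN0 al io u c hz _ (pad e k l) hP g (by rw [hpad]; exact hg)
    refine ⟨k1 v - (k + m) • k1 (uM Unit u), ?_⟩
    rw [map_sub, map_nsmul, hu, hd _ v _ hv, hPk, add_smul]
    abel

end Pool.Agent.PV
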