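import Pool.Agent.helper72.PV.SpecH

set_option autoImplicit false

open Finset

namespace Pool.Agent.PVH

open Pool.Agent.PV Pool.Agent.CZ

theorem FAC_down {n : ℕ → ℕ} {h : ℕ → ℕ → ℕ} {pr : ℕ → ℕ × ℕ → ℕ × ℕ} (y z : ↥(Om n h pr)) (d : ℕ) :
    ∀ j, y.1 (j + d) = z.1 (j + d) → y.1 j = z.1 j := by
  induction d with
  | zero =>
    intro j hj
    exact hj
  | succ d ih =>
    intro j hj
    refine ih j ?_
    rw [(y.2 (j + d)).2, (z.2 (j + d)).2]
    have h1 : j + (d + 1) = j + d + 1 := by omega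
    rw [h1] at hj
    rw [hj]

theorem FAC (hOTP : OTP_stmt) (hCYL : CYL_stmt) : FAC_stmt := by
  classical
  intro n h pr f
  obtain ⟨hc, -, -⟩ := hOTP n h pr
  have h1 : ∀ x : ↥(Om n h pr), ∃ k, ∀ y : ↥(Om n h pr), y.1 k = x.1 k → f y = f x := by
    intro x
    obtain ⟨k, hk⟩ := hCYL n h pr (f ⁻¹' {f x}) ((isOpen_discrete _).preimage f.continuous) x rfl
    exact ⟨k, fun y hy => hk y hy⟩
  choose k hk using h1
  have hopen : ∀ x : ↥(Om n h pr), {y : ↥(Om n h pr) | y.1 (k x) = x.1 (k x)} ∈ nhds x := by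
    intro x
    refine IsOpen.mem_nhds ?_ rfl
    have h2 : Continuous fun y : ↥(Om n h pr) => y.1 (k x) :=
      (continuous_apply (k x)).comp continuous_subtype_val
    exact (isOpen_discrete {x.1 (k x)}).preimage h2
  obtain ⟨t, ht⟩ := CompactSpace.elim_nhds_subcover _ hopen
  set K : ℕ := t.sup k with hK
  have key : ∀ y z : ↥(Om n h pr), y.1 K = z.1 K → f y = f z := by
    intro y z hyz
    have hy : y ∈ (⊤ : Set ↥(Om n h pr)) := trivial
    rw [← ht, Set.mem_iUnion₂] at hy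
    obtain ⟨x, hx, hyx⟩ := hy
    have hle : k x ≤ K := Finset.le_sup hx
    obtain ⟨d, hd⟩ := Nat.exists_eq_add_of_le hle
    have h3 : y.1 (k x) = z.1 (k x) := FAC_down y z d (k x) (by rw [← hd]; exact hyz)
    have h4 : f y = f x := hk x y hyx
    have h5 : f z = f x := hk x z (h3.symm.trans hyx)
    rw [h4, h5]
  refine ⟨K, fun p => if hp : ∃ y : ↥(Om n h pr), y.1 K = p then f hp.choose else 0, ?_⟩
  intro x
  have hp : ∃ y : ↥(Om n h pr), y.1 K = x.1 K := ⟨x, rfl⟩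
  change f x = if hp : ∃ y : ↥(Om n h pr), y.1 K = x.1 K then f hp.choose else 0
  rw [dif_pos hp]
  exact key _ _ hp.choose_spec.symm

end Pool.Agent.PVH
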