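import Pool.Agent.helper77.PV.SpecA

set_option autoImplicit false

open scoped Matrix Topology
open Filter

namespace Pool.Agent.PV

open Pool.Agent.CZ

theorem MF1_sum {I M : Type*} [DecidableEq I] [AddCommMonoid M] (F : Finset I) (a : I) (ha : a ∉ F)
    (f : ↥(insert a F) → M) : ∑ k, f k = (∑ k : F, f ⟨k, Finset.mem_insert_of_mem k.2⟩) +
      f ⟨a, Finset.mem_insert_self a F⟩ := by
  classical
  have h1 : ∀ (G : Finset I) (g : I → M), ∑ k : G, g k = ∑ k ∈ G, g k := fun G g =>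
    Finset.sum_coe_sort G g
  set g : I → M := fun k => if h : k ∈ insert a F then f ⟨k, h⟩ else 0 with hg
  have h2 : ∑ k, f k = ∑ k : ↥(insert a F), g k := by
    refine Finset.sum_congr rfl fun k _ => ?_
    rw [hg]
    simp only [dif_pos k.2]
  have h3 : (∑ k : F, f ⟨k, Finset.mem_insert_of_mem k.2⟩) = ∑ k : F, g k := by
    refine Finset.sum_congr rfl fun k _ => ?_
    rw [hg]
    simp only [dif_pos (Finset.mem_insert_of_mem k.2 : (k : I) ∈ insert a F)]
  have h4 : f ⟨a, Finset.mem_insert_self a F⟩ = g a := by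
    rw [hg]
    simp only [dif_pos (Finset.mem_insert_self a F)]
  rw [h2, h3, h4, h1, h1, Finset.sum_insert ha, add_comm]

theorem MF1_congr {A B : Type} [Ring A] [Ring B] [TopologicalSpace A] [TopologicalSpace B]
    (φ ψ : A →+* B) (hφ : Continuous φ) (hψ : Continuous ψ) (h : φ = ψ) (z : K1 A) :
    k1map φ hφ z = k1map ψ hψ z := by
  subst h
  rfl

theorem MF1_bij (hFUN : FUN_stmt) {A B : Type} [Ring A] [Ring B] [TopologicalSpace A]
    [TopologicalSpace B] (φ : A →+* B) (ψ : B →+* A) (hφ : Continuous φ) (hψ : Continuous ψ)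
    (h1 : ψ.comp φ = RingHom.id A) (h2 : φ.comp ψ = RingHom.id B) :
    (∀ z : K1 A, k1map ψ hψ (k1map φ hφ z) = z) ∧ ∀ w : K1 B, k1map φ hφ (k1map ψ hψ w) = w := by
  obtain ⟨-, -, -, f1, f2⟩ := hFUN
  constructor
  · intro z
    rw [← f2 A B A φ ψ hφ hψ (by exact hψ.comp hφ) z]
    rw [MF1_congr _ _ _ continuous_id h1 z]
    exact f1 A z
  · intro w
    rw [← f2 B A B ψ φ hψ hφ (by exact hφ.comp hψ) w]
    rw [MF1_congr _ _ _ continuous_id h2 w]
    exact f1 B w

/-- the claim for `F` -/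
def MF1_P {I C₀ C D : Type} [NormedRing C₀] [NormedAlgebra ℂ C₀]
    [NormedRing C] [NormedAlgebra ℂ C] [NormedRing D] [NormedAlgebra ℂ D]
    (j : C₀ →ₐ[ℂ] C) (e : I → C →ₐ[ℂ] D) (r : I → D →ₐ[ℂ] C) (F : Finset I) : Prop :=
  ∃ (jF : C₀ →ₐ[ℂ] mS e F) (rF : F → D →ₐ[ℂ] mS e F) (hj : Continuous jF.toRingHom)
    (hr : ∀ k, Continuous (rF k).toRingHom), (∀ x, (jF x : C) = j x) ∧ (∀ (k : F) (d : D), (rF k d : C) = r k d) ∧
  (∀ w : K1 (mS e F), ∃ (x : K1 C₀) (y : F → K1 D),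
    w = k1map jF.toRingHom hj x + ∑ k, k1map (rF k).toRingHom (hr k) (y k)) ∧
  ∀ (x : K1 C₀) (y : F → K1 D), k1map jF.toRingHom hj x + ∑ k, k1map (rF k).toRingHom (hr k) (y k) = 0 →
    x = 0 ∧ y = 0

theorem MF1_empty (hFUN : FUN_stmt) {I C₀ C D : Type} [NormedRing C₀] [NormedAlgebra ℂ C₀]
    [NormedRing C] [NormedAlgebra ℂ C] [NormedRing D] [NormedAlgebra ℂ D]
    (j : C₀ →ₐ[ℂ] C) (e : I → C →ₐ[ℂ] D) (r : I → D →ₐ[ℂ] C) (hm : MSplit j e r) :
    MF1_P j e r ∅ := by
  classical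
  set jF : C₀ →ₐ[ℂ] mS e (∅ : Finset I) := AlgHom.codRestrict j (mS e ∅) (fun x k _ => hm.sca k x)
    with hjF
  have hcoe : ∀ x, (jF x : C) = j x := fun x => rfl
  have hiso : Isometry jF := by
    refine AddMonoidHomClass.isometry_of_norm jF fun x => ?_
    have h1 : ‖jF x‖ = ‖(jF x : C)‖ := rfl
    rw [h1, hcoe, hm.iso]
  have hsurj : Function.Surjective jF := by
    intro w
    obtain ⟨x, hx⟩ := hm.ran (w : C) (fun k => w.2 k (Finset.notMem_empty k))
    exact ⟨x, Subtype.ext (by rw [hcoe, hx])⟩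
  have hinj : Function.Injective jF := hiso.injective
  set E : C₀ ≃ₐ[ℂ] mS e (∅ : Finset I) := AlgEquiv.ofBijective jF ⟨hinj, hsurj⟩ with hE
  have hEj : ∀ x, E x = jF x := fun x => rfl
  have hc : Continuous jF.toRingHom := hiso.continuous
  have hc' : Continuous (E.symm : mS e (∅ : Finset I) →ₐ[ℂ] C₀).toRingHom := by
    have h2 : Isometry (E.symm : mS e (∅ : Finset I) → C₀) := by
      refine hiso.right_inv fun w => ?_
      rw [← hEj]
      exact E.apply_symm_apply w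
    exact h2.continuous
  have hb := MF1_bij hFUN jF.toRingHom (E.symm : mS e (∅ : Finset I) →ₐ[ℂ] C₀).toRingHom hc hc'
    (by
      ext x
      exact E.symm_apply_apply x)
    (by
      refine RingHom.ext fun w => ?_
      exact E.apply_symm_apply w)
  refine ⟨jF, fun k => absurd k.2 (Finset.notMem_empty _), hc, fun k => absurd k.2 (Finset.notMem_empty _),
    hcoe, fun k => absurd k.2 (Finset.notMem_empty _), ?_, ?_⟩
  · intro w
    refine ⟨k1map _ hc' w, fun _ => 0, ?_⟩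
    rw [hb.2 w, Finset.univ_eq_empty, Finset.sum_empty, add_zero]
  · intro x y hxy
    rw [Finset.univ_eq_empty, Finset.sum_empty, add_zero] at hxy
    refine ⟨?_, ?_⟩
    · have h3 := hb.1 x
      rw [hxy, map_zero] at h3
      exact h3.symm
    · funext k
      exact absurd k.2 (Finset.notMem_empty _)

theorem MF1_step (hMSF : MSF_stmt) (hSX1 : SX1_stmt) (hFUN : FUN_stmt) {I C₀ C D : Type}
    [DecidableEq I] [NormedRing C₀] [NormedAlgebra ℂ C₀] [CompleteSpace C₀]
    [NormedRing C] [NormedAlgebra ℂ C] [CompleteSpace C] [NormedRing D] [NormedAlgebra ℂ D]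
    [CompleteSpace D]
    (j : C₀ →ₐ[ℂ] C) (e : I → C →ₐ[ℂ] D) (r : I → D →ₐ[ℂ] C) (hm : MSplit j e r) (F : Finset I)
    (a : I) (ha : a ∉ F) (hP : MF1_P j e r F) : MF1_P j e r (insert a F) := by
  obtain ⟨hcl, -, hM, hS⟩ := hMSF I C₀ C D j e r hm
  obtain ⟨rk, hrk, hsp⟩ := hS F a ha
  obtain ⟨-, -, -, -, f2⟩ := hFUN
  obtain ⟨jF, rF, hj, hr, cj, cr, hs, hi⟩ := hP
  have : CompleteSpace (mS e F) := (hcl F).completeSpace_coe
  have : CompleteSpace (mS e (insert a F)) := (hcl (insert a F)).completeSpace_coe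
  set inc := Subalgebra.inclusion (hM (Finset.subset_insert a F)) with hinc
  have hci : Continuous inc.toRingHom := by
    refine Continuous.subtype_mk ?_ _
    exact continuous_subtype_val
  have hcr : Continuous rk.toRingHom := hsp.cr
  obtain ⟨s1, s2⟩ := hSX1 (mS e F) (mS e (insert a F)) D inc _ rk hci hcr hsp
  have hj' : Continuous (inc.comp jF).toRingHom := hci.comp hj
  have hr' : ∀ k, Continuous (inc.comp (rF k)).toRingHom := fun k => hci.comp (hr k)
  have key : ∀ k : ↥(insert a F), (k : I) ∉ F → (k : I) = a := fun k hk =>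
    (Finset.mem_insert.1 k.2).resolve_right hk
  have hrc : ∀ k : ↥(insert a F), Continuous (if h : (k : I) ∈ F then inc.comp (rF ⟨k, h⟩)
      else rk).toRingHom := by
    intro k
    by_cases h : (k : I) ∈ F
    · rw [dif_pos h]
      exact hr' _
    · rw [dif_neg h]
      exact hcr
  have hsum : ∀ (x : K1 C₀) (y : ↥(insert a F) → K1 D),
      k1map (inc.comp jF).toRingHom hj' x + ∑ k : ↥(insert a F),
        k1map (if h : (k : I) ∈ F then inc.comp (rF ⟨k, h⟩) else rk).toRingHom (hrc k) (y k) =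
      k1map inc.toRingHom hci (k1map jF.toRingHom hj x + ∑ k : F, k1map (rF k).toRingHom (hr k)
        (y ⟨k, Finset.mem_insert_of_mem k.2⟩)) +
      k1map rk.toRingHom hcr (y ⟨a, Finset.mem_insert_self a F⟩) := by
    intro x y
    rw [MF1_sum F a ha, map_add, map_sum, ← add_assoc]
    refine congrArg₂ (· + ·) (congrArg₂ (· + ·) ?_ ?_) ?_
    · exact f2 C₀ (mS e F) (mS e (insert a F)) jF.toRingHom inc.toRingHom hj hci hj' x
    · refine Finset.sum_congr rfl fun k _ => ?_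
      rw [← f2 D (mS e F) (mS e (insert a F)) (rF k).toRingHom inc.toRingHom (hr k) hci (hr' k) _]
      refine MF1_congr _ _ _ _ ?_ _
      rw [dif_pos k.2]
      rfl
    · refine MF1_congr _ _ _ _ ?_ _
      rw [dif_neg ha]
  refine ⟨inc.comp jF, fun k => if h : (k : I) ∈ F then inc.comp (rF ⟨k, h⟩) else rk, hj', hrc,
    ?_, ?_, ?_, ?_⟩
  · intro x
    rw [← cj x]
    rfl
  · intro k d
    by_cases h : (k : I) ∈ F
    · simp only [dif_pos h]
      exact cr ⟨k, h⟩ d
    · simp only [dif_neg h]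
      rw [hrk, key k h]
  · intro w
    obtain ⟨w₁, v, hw⟩ := s1 w
    obtain ⟨x, y, hx⟩ := hs w₁
    refine ⟨x, fun k => if h : (k : I) ∈ F then y ⟨k, h⟩ else v, ?_⟩
    rw [hsum, hw, hx]
    simp only [dif_neg ha, dif_pos (Subtype.prop _)]
  · intro x y hxy
    rw [hsum] at hxy
    obtain ⟨h1, h2⟩ := s2 _ _ hxy
    obtain ⟨h3, h4⟩ := hi x _ h1
    refine ⟨h3, ?_⟩
    funext k
    by_cases h : (k : I) ∈ F
    · exact congrFun h4 ⟨k, h⟩
    · have h5 : k = ⟨a, Finset.mem_insert_self a F⟩ := Subtype.ext (key k h)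
      rw [h5, h2]
      rfl

theorem MF1 (hMSF : MSF_stmt) (hSX1 : SX1_stmt) (hFUN : FUN_stmt) : MF1_stmt := by
  classical
  intro I C₀ C D _ _ _ _ _ _ _ _ _ j e r hm F
  have h : MF1_P j e r F := by
    refine Finset.induction_on F ?_ ?_
    · exact MF1_empty hFUN j e r hm
    · intro a F ha hP
      exact MF1_step hMSF hSX1 hFUN j e r hm F a ha hP
  exact h

end Pool.Agent.PV
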